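import Pool.Agent.X145.LO.Sel
import Pool.Agent.X145.LO.Four
import Pool.Agent.X145.LO.Theta

set_option autoImplicit false
open MeasureTheory ProbabilityTheory Filter Topology

/-!
# MP_ece343_co: small-ball inverse Littlewood–Offord theorem in every dimension

For every `ε ∈ (0,1)` and `C > 0` there is `K = K(C, ε)` such that for all `n ≥ 2`, all
dimensions `d` (no restriction `d ≤ log n` is needed), all `a₁, …, aₙ ∈ ℝ^d` and all closed balls
`B` of radius `1/√n` with `P(∑ ± a_i ∈ B) ≥ n^{-C}` there is a subspace `S` of dimension at most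
`K` such that at most `n^ε` of the `a_i` have distance greater than `n^{-ε}` from `S`.
-/

namespace Pool.Agent.Results.MP_ece343_co.InverseSmallBall

open Pool.Agent.X145.LO

open Classical in
/-- `P(x₁ a₁ + ⋯ + xₙ aₙ ∈ B)` for independent uniform random signs `x_i`. -/
noncomputable def prob {n d : ℕ} (a : Fin n → EuclideanSpace ℝ (Fin d))
    (B : Set (EuclideanSpace ℝ (Fin d))) : ℝ :=
  ((Finset.univ.filter fun x : Fin n → Bool =>
    (∑ i, (if x i then a i else -a i)) ∈ B).card : ℝ) / 2 ^ n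

theorem prob_le {n d : ℕ} (hn : 0 < n) (a : Fin n → EuclideanSpace ℝ (Fin d))
    (c : EuclideanSpace ℝ (Fin d)) :
    prob a (Metric.closedBall c (1 / Real.sqrt n)) ≤
      2 * ((1 / 2 ^ n : ℝ) * ∑ x : Fin n → Bool,
        Real.exp (-‖∑ i, sg (x i) • (Real.sqrt n • a i) - Real.sqrt n • c‖ ^ 2 / 2)) := by
  classical
  have hn' : (0 : ℝ) < n := by exact_mod_cast hn
  have hs : 0 < Real.sqrt n := Real.sqrt_pos.2 hn'
  have hexp : (1 : ℝ) ≤ 2 * Real.exp (-1 / 2) := by
    have h1 := Real.add_one_le_exp (-1 / 2 : ℝ)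
    linarith
  have h1 : ((Finset.univ.filter fun x : Fin n → Bool =>
      (∑ i, (if x i then a i else -a i)) ∈ Metric.closedBall c (1 / Real.sqrt n)).card : ℝ) ≤
      ∑ x : Fin n → Bool, 2 *
        Real.exp (-‖∑ i, sg (x i) • (Real.sqrt n • a i) - Real.sqrt n • c‖ ^ 2 / 2) := by
    rw [Finset.card_eq_sum_ones, Nat.cast_sum, Finset.sum_filter]
    refine Finset.sum_le_sum fun x _ => ?_
    split_ifs with hx
    · rw [Nat.cast_one]
      refine hexp.trans (mul_le_mul_of_nonneg_left (Real.exp_le_exp.2 ?_) (by norm_num))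
      rw [Metric.mem_closedBall, dist_eq_norm] at hx
      have e : ∑ i, sg (x i) • (Real.sqrt n • a i) - Real.sqrt n • c =
          Real.sqrt n • ((∑ i, (if x i then a i else -a i)) - c) := by
        rw [smul_sub, Finset.smul_sum]
        congr 1
        refine Finset.sum_congr rfl fun i _ => ?_
        unfold sg
        split_ifs <;> simp
      rw [e, norm_smul, Real.norm_of_nonneg hs.le]
      have h2 : Real.sqrt n * ‖(∑ i, (if x i then a i else -a i)) - c‖ ≤ 1 := by
        calc _ ≤ Real.sqrt n * (1 / Real.sqrt n) := mul_le_mul_of_nonneg_left hx hs.le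
          _ = 1 := by field_simp
      have h3 : 0 ≤ Real.sqrt n * ‖(∑ i, (if x i then a i else -a i)) - c‖ := by positivity
      nlinarith
    · positivity
  unfold prob
  rw [div_le_iff₀ (by positivity)]
  refine le_trans (le_of_eq ?_) (h1.trans (le_of_eq ?_))
  · rfl
  · rw [← Finset.mul_sum]
    field_simp

theorem result (ε : ℝ) (hε : 0 < ε) (hε1 : ε < 1) (C : ℝ) (hC : 0 < C) :
    ∃ K : ℕ, ∀ (n d : ℕ), 2 ≤ n → ∀ (a : Fin n → EuclideanSpace ℝ (Fin d))
      (c : EuclideanSpace ℝ (Fin d)),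
      (n : ℝ) ^ (-C) ≤ prob a (Metric.closedBall c (1 / Real.sqrt n)) →
      ∃ S : Submodule ℝ (EuclideanSpace ℝ (Fin d)), Module.finrank ℝ S ≤ K ∧
        ((Finset.univ.filter fun i : Fin n =>
          (n : ℝ) ^ (-ε) < Metric.infDist (a i) (S : Set (EuclideanSpace ℝ (Fin d)))).card : ℝ) ≤
          (n : ℝ) ^ ε := by
  set δ0 : ℝ := min ε (1 - ε) / 2 with hδ0
  have hδp : 0 < δ0 := by
    rw [hδ0]
    have : 0 < min ε (1 - ε) := lt_min hε (by linarith)
    linarith
  have hδ1 : δ0 ≤ ε / 2 := by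
    have := min_le_left ε (1 - ε); rw [hδ0]; linarith
  have hδ2 : δ0 ≤ (1 - ε) / 2 := by
    have := min_le_right ε (1 - ε); rw [hδ0]; linarith
  obtain ⟨m, hm⟩ := exists_nat_ge ((C + 1) / δ0)
  have hmC : C + 1 ≤ δ0 * m := by
    rw [div_le_iff₀ hδp] at hm
    linarith
  have hm0 : 0 < m := by
    rcases Nat.eq_zero_or_pos m with h | h
    · rw [h, Nat.cast_zero, mul_zero] at hmC
      linarith
    · exact h
  have hm' : (0 : ℝ) < m := by exact_mod_cast hm0
  set A : ℝ := 2 * (32 * Real.sqrt (2 * m)) ^ m with hA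
  obtain ⟨n0, hn0⟩ := exists_nat_ge (max A ((2 * m : ℝ) ^ (1 / ε)))
  refine ⟨max m n0, ?_⟩
  intro n d hn a c hp
  by_cases hnn : n ≤ n0
  · -- trivial case
    refine ⟨Submodule.span ℝ (Set.range a), ?_, ?_⟩
    · have h1 := finrank_range_le_card (R := ℝ) a
      rw [Fintype.card_fin] at h1
      exact (h1.trans hnn).trans (le_max_right _ _)
    · have h1 : (Finset.univ.filter fun i : Fin n => (n : ℝ) ^ (-ε) < Metric.infDist (a i)
          (Submodule.span ℝ (Set.range a) : Set (EuclideanSpace ℝ (Fin d)))) = ∅ := by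
        rw [Finset.filter_eq_empty_iff]
        intro i _
        rw [Metric.infDist_zero_of_mem (show a i ∈ ((Submodule.span ℝ (Set.range a) :
          Submodule ℝ (EuclideanSpace ℝ (Fin d))) : Set (EuclideanSpace ℝ (Fin d))) from
            Submodule.subset_span ⟨i, rfl⟩), not_lt]
        positivity
      rw [h1, Finset.card_empty, Nat.cast_zero]
      positivity
  · push Not at hnn
    by_contra hcon
    push Not at hcon
    have hn' : (1 : ℝ) < n := by exact_mod_cast (by omega : 1 < n)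
    have hn0' : (0 : ℝ) < n := by linarith
    have hs : 0 < Real.sqrt n := Real.sqrt_pos.2 hn0'
    have hnA : A < n := lt_of_le_of_lt ((le_max_left _ _).trans hn0) (by exact_mod_cast hnn)
    have hnm : (2 * m : ℝ) ≤ (n : ℝ) ^ ε := by
      have h1 : (2 * m : ℝ) ^ (1 / ε) ≤ n :=
        ((le_max_right _ _).trans hn0).trans (by exact_mod_cast hnn.le)
      have h2 := Real.rpow_le_rpow (by positivity) h1 hε.le
      rwa [← Real.rpow_mul (by positivity), one_div_mul_cancel hε.ne', Real.rpow_one] at h2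
    set X : ℝ := (n : ℝ) ^ ε with hX
    have hXp : 0 < X := by positivity
    set M : ℕ := ⌊X / (2 * m)⌋₊ with hM
    have hM1 : (M : ℝ) ≤ X / (2 * m) := Nat.floor_le (by positivity)
    have hM2 : X / (2 * m) < (M : ℝ) + 1 := Nat.lt_floor_add_one _
    have hM0 : 0 < M := by
      rw [hM, Nat.floor_pos, le_div_iff₀ (by positivity)]
      linarith
    have hNm : ((2 * M : ℕ) : ℝ) * m ≤ X := by
      rw [le_div_iff₀ (by positivity)] at hM1
      push_cast
      linarith
    obtain ⟨T, hT1, hT2⟩ := tuples a ((n : ℝ) ^ (-ε)) (by positivity) (max m n0) X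
      (fun S hS => hcon S hS) m (by have := le_max_left m n0; omega) (2 * M) hNm
    set R0 : ℝ := Real.sqrt n * (n : ℝ) ^ (-ε) with hR0
    have hR0p : 0 < R0 := by positivity
    set θ : ℝ := 16 * (1 + 1 / (2 * R0)) / Real.sqrt (2 * M + 1) with hθ
    have hsM : 0 < Real.sqrt (2 * (M : ℝ) + 1) := Real.sqrt_pos.2 (by positivity)
    have hθ0 : 0 ≤ θ := by positivity
    have hPsi : ∀ τ, Psi (2 * M) m (fun j => Real.sqrt n • a (T τ j)) 0 ≤ θ ^ m := by
      intro τ
      refine Psi_le (2 * M) R0 θ hθ0 (fun c' R hR => ?_) m _ _ (good_smul _ _ hs.le m _ (hT2 τ))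
      have hRp : 0 < R := lt_of_lt_of_le hR0p hR
      refine (theta_bound M c' R hRp).trans ?_
      rw [hθ]
      refine div_le_div_of_nonneg_right ?_ hsM.le
      have : 1 / (2 * R) ≤ 1 / (2 * R0) := one_div_le_one_div_of_le (by positivity) (by linarith)
      linarith
    have h1 := holder_bound (E := EuclideanSpace ℝ (Fin d)) (by omega : 0 < 2 * M) (even_two_mul M)
      (fun i => Real.sqrt n • a i) T hT1 (θ ^ m) hPsi
    have h2 := fourier_bound (fun i => Real.sqrt n • a i) (Real.sqrt n • c)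
    have h3 := prob_le (by omega : 0 < n) a c
    have h4 : (n : ℝ) ^ (-C) ≤ 2 * θ ^ m := by
      refine hp.trans (h3.trans ?_)
      linarith
    -- bound on θ
    have h5 : Real.sqrt X / Real.sqrt (2 * m) ≤ Real.sqrt (2 * M + 1) := by
      rw [← Real.sqrt_div hXp.le]
      refine Real.sqrt_le_sqrt ?_
      have e1 : X / (2 * m) ≥ 1 := by
        rw [ge_iff_le, le_div_iff₀ (by positivity)]
        linarith
      linarith
    have h6 : θ ≤ 32 * Real.sqrt (2 * m) * (n : ℝ) ^ (-δ0) := by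
      have e1 : 1 / Real.sqrt (2 * M + 1) ≤ Real.sqrt (2 * m) * (n : ℝ) ^ (-(ε / 2)) := by
        rw [div_le_iff₀ hsM]
        have e2 : Real.sqrt X = (n : ℝ) ^ (ε / 2) := by
          rw [Real.sqrt_eq_rpow, hX, ← Real.rpow_mul hn0'.le]
          congr 1
          ring
        rw [e2] at h5
        have hs2 : 0 < Real.sqrt (2 * (m : ℝ)) := Real.sqrt_pos.2 (by positivity)
        rw [div_le_iff₀ hs2] at h5
        have e3 : (n : ℝ) ^ (-(ε / 2)) * (n : ℝ) ^ (ε / 2) = 1 := by
          rw [← Real.rpow_add hn0', neg_add_cancel, Real.rpow_zero]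
        have e4 : 0 < (n : ℝ) ^ (-(ε / 2)) := by positivity
        nlinarith [mul_le_mul_of_nonneg_left h5 e4.le]
      have e5 : 1 / (2 * R0) ≤ (n : ℝ) ^ (ε - 1 / 2) := by
        have e6 : R0 = (n : ℝ) ^ (1 / 2 - ε) := by
          rw [hR0, Real.sqrt_eq_rpow, ← Real.rpow_add hn0']
          congr 1
        have e7 : (n : ℝ) ^ (ε - 1 / 2) * R0 = 1 := by
          rw [e6, ← Real.rpow_add hn0']
          rw [show ε - 1 / 2 + (1 / 2 - ε) = 0 by ring, Real.rpow_zero]
        rw [div_le_iff₀ (by positivity)]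
        nlinarith
      have e8 : (n : ℝ) ^ (-(ε / 2)) ≤ (n : ℝ) ^ (-δ0) :=
        Real.rpow_le_rpow_of_exponent_le hn'.le (by linarith)
      have e9 : (n : ℝ) ^ (ε - 1 / 2) * (n : ℝ) ^ (-(ε / 2)) ≤ (n : ℝ) ^ (-δ0) := by
        rw [← Real.rpow_add hn0']
        exact Real.rpow_le_rpow_of_exponent_le hn'.le (by linarith)
      have hs2 : 0 ≤ Real.sqrt (2 * (m : ℝ)) := Real.sqrt_nonneg _
      calc θ = 16 * (1 + 1 / (2 * R0)) * (1 / Real.sqrt (2 * M + 1)) := by rw [hθ]; ring
        _ ≤ 16 * (1 + (n : ℝ) ^ (ε - 1 / 2)) * (Real.sqrt (2 * m) * (n : ℝ) ^ (-(ε / 2))) :=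
            mul_le_mul (by linarith) e1 (by positivity) (by positivity)
        _ = 16 * Real.sqrt (2 * m) * ((n : ℝ) ^ (-(ε / 2)) + (n : ℝ) ^ (ε - 1 / 2) * (n : ℝ) ^ (-(ε / 2))) := by ring
        _ ≤ 16 * Real.sqrt (2 * m) * ((n : ℝ) ^ (-δ0) + (n : ℝ) ^ (-δ0)) :=
            mul_le_mul_of_nonneg_left (add_le_add e8 e9) (by positivity)
        _ = _ := by ring
    have h7 : 2 * θ ^ m ≤ A * (n : ℝ) ^ (-(δ0 * m)) := by
      have e1 := pow_le_pow_left₀ hθ0 h6 m
      rw [mul_pow] at e1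
      have e2 : ((n : ℝ) ^ (-δ0)) ^ m = (n : ℝ) ^ (-(δ0 * m)) := by
        rw [← Real.rpow_natCast, ← Real.rpow_mul hn0'.le]
        congr 1
        ring
      rw [e2] at e1
      rw [hA]
      linarith
    have h8 : (n : ℝ) ^ (-(δ0 * m)) ≤ (n : ℝ) ^ (-C) / n := by
      have : (n : ℝ) ^ (-C) / n = (n : ℝ) ^ (-C - 1) := by
        rw [Real.rpow_sub hn0', Real.rpow_one]
      rw [this]
      exact Real.rpow_le_rpow_of_exponent_le hn'.le (by linarith)
    have hA0 : 0 ≤ A := by positivity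
    have h9 : A * ((n : ℝ) ^ (-C) / n) < (n : ℝ) ^ (-C) := by
      rw [← mul_div_assoc, div_lt_iff₀ hn0', mul_comm]
      exact mul_lt_mul_of_pos_left hnA (by positivity)
    have := (h4.trans h7).trans (mul_le_mul_of_nonneg_left h8 hA0)
    linarith

end Pool.Agent.Results.MP_ece343_co.InverseSmallBall
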